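import Pool.Agent.R299.OFS.Defs

/-!
# Semisimplicity from a normal subgroup and a filtered semisimple subgroup
-/

set_option autoImplicit false
set_option linter.unusedSectionVars false
set_option linter.unusedVariables false

namespace Pool.Agent.R299.OFS

open Module LinearMap

noncomputable section

variable {F G V : Type} [Field F] [CharZero F] [Group G] [AddCommGroup V] [Module F V]
  [FiniteDimensional F V] (ρ : Representation F G V)

/-- The endomorphisms which commute with `N`. -/
def cen (N : Subgroup G) : Submodule F (End F V) where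
  carrier := {a | ∀ n ∈ N, ∀ v, a (ρ n v) = ρ n (a v)}
  add_mem' := by
    intro a b ha hb n hn v
    rw [LinearMap.add_apply, LinearMap.add_apply, ha n hn, hb n hn, map_add]
  zero_mem' := by
    intro n hn v
    simp
  smul_mem' := by
    intro c a ha n hn v
    rw [LinearMap.smul_apply, LinearMap.smul_apply, ha n hn, map_smul]

variable {ρ} {N H : Subgroup G}

theorem cen_mul {a b : End F V} (ha : a ∈ cen ρ N) (hb : b ∈ cen ρ N) : a * b ∈ cen ρ N := by
  intro n hn v
  change a (b (ρ n v)) = ρ n (a (b v))
  rw [hb n hn, ha n hn]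

/-- The projection onto a stable subspace along a stable complement. -/
theorem exists_proj {W W' : Submodule F V} (h : IsCompl W W') (hW : IsStable ρ N W)
    (hW' : IsStable ρ N W') : ∃ e ∈ cen ρ N, (∀ w ∈ W, e w = w) ∧ (∀ w ∈ W', e w = 0) ∧
      ∀ v, e v ∈ W := by
  let e : End F V := W.projection W' h
  have h1 : ∀ w ∈ W, e w = w := fun w hw => Submodule.projection_apply_of_mem_left h hw
  have h2 : ∀ w ∈ W', e w = 0 := fun w hw => Submodule.projection_apply_of_mem_right h hw
  have h3 : ∀ v, e v ∈ W := fun v => by
    change W.projection W' h v ∈ W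
    rw [Submodule.projection_apply]
    exact SetLike.coe_mem _
  refine ⟨e, ?_, h1, h2, h3⟩
  intro n hn v
  obtain ⟨w, hw, w', hw', rfl⟩ : ∃ w ∈ W, ∃ w' ∈ W', v = w + w' := by
    have h4 : v ∈ W ⊔ W' := by
      rw [h.sup_eq_top]
      trivial
    obtain ⟨w, hw, w', hw', h5⟩ := Submodule.mem_sup.1 h4
    exact ⟨w, hw, w', hw', h5.symm⟩
  rw [map_add, map_add, map_add, h1 _ (hW n hn w hw), h2 _ (hW' n hn w' hw'), h1 w hw, h2 w' hw',
    add_zero, add_zero]

/-- The trace form is nondegenerate on the commutant of a semisimple group. -/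
theorem trace_nondeg (hN : IsSemisimple ρ N) {a : End F V} (ha : a ∈ cen ρ N)
    (h : ∀ b ∈ cen ρ N, LinearMap.trace F V (a * b) = 0) : a = 0 := by
  have hker : IsStable ρ N (LinearMap.ker a) := by
    intro n hn v hv
    rw [LinearMap.mem_ker] at hv ⊢
    rw [ha n hn, hv, map_zero]
  have hran : IsStable ρ N (LinearMap.range a) := by
    rintro n hn _ ⟨v, rfl⟩
    exact ⟨ρ n v, ha n hn v⟩
  obtain ⟨C, hC, hKC⟩ := hN _ hker
  obtain ⟨D, hD, hRD⟩ := hN _ hran
  obtain ⟨p, hp, hp1, hp2, hp3⟩ := exists_proj hRD hran hD
  -- the inverse of `a` on its range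
  have hinj : Function.Injective (a ∘ₗ C.subtype) := by
    rw [← LinearMap.ker_eq_bot, LinearMap.ker_eq_bot']
    intro c hc
    have h1 : (c : V) ∈ LinearMap.ker a ⊓ C := ⟨hc, c.2⟩
    rw [hKC.inf_eq_bot, Submodule.mem_bot] at h1
    exact Subtype.ext h1
  have hex : ∀ y ∈ LinearMap.range a, ∃ c : C, a c = y := by
    rintro _ ⟨v, rfl⟩
    have h4 : v ∈ LinearMap.ker a ⊔ C := by
      rw [hKC.sup_eq_top]
      trivial
    obtain ⟨k, hk, c, hc, rfl⟩ := Submodule.mem_sup.1 h4
    refine ⟨⟨c, hc⟩, ?_⟩
    rw [LinearMap.mem_ker] at hk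
    rw [map_add, hk, zero_add]
  have hpr : ∀ v, p v ∈ LinearMap.range a := hp3
  choose g hg using fun v => hex (p v) (hpr v)
  let b : End F V :=
    { toFun := fun v => (g v : V)
      map_add' := by
        intro v w
        have h1 : (a ∘ₗ C.subtype) (g (v + w)) = (a ∘ₗ C.subtype) (g v + g w) := by
          change a (g (v + w)) = a ((g v : V) + (g w : V))
          rw [hg, map_add, map_add, hg, hg]
        have h2 := hinj h1
        rw [h2]
        rfl
      map_smul' := by
        intro c v
        have h1 : (a ∘ₗ C.subtype) (g (c • v)) = (a ∘ₗ C.subtype) (c • g v) := by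
          change a (g (c • v)) = a (c • (g v : V))
          rw [hg, map_smul, map_smul, hg]
        have h2 := hinj h1
        rw [h2]
        rfl }
  have hb : b ∈ cen ρ N := by
    intro n hn v
    have h1 : (a ∘ₗ C.subtype) (g (ρ n v)) = (a ∘ₗ C.subtype) ⟨ρ n (g v), hC n hn _ (g v).2⟩ := by
      change a (g (ρ n v)) = a (ρ n (g v))
      rw [hg, hp n hn, ha n hn, hg]
    have h2 := hinj h1
    change (g (ρ n v) : V) = ρ n (g v)
    rw [h2]
  have hab : a * b = p := by
    refine LinearMap.ext fun v => ?_
    exact hg v
  have h5 := h b hb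
  rw [hab] at h5
  have hproj : LinearMap.IsProj (LinearMap.range a) p := ⟨hp3, hp1⟩
  rw [hproj.trace] at h5
  have h6 : finrank F (LinearMap.range a) = 0 := by exact_mod_cast h5
  have h7 := Submodule.finrank_eq_zero.1 h6
  exact LinearMap.range_eq_bot.1 h7

/-- Functionals on the commutant are given by the trace form. -/
theorem exists_repr (hN : IsSemisimple ρ N) (P : End F V) :
    ∃ e ∈ cen ρ N, ∀ a ∈ cen ρ N, LinearMap.trace F V (e * a) = LinearMap.trace F V (P * a) := by
  let A := cen ρ N
  let T : A →ₗ[F] Module.Dual F A :=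
    { toFun := fun e =>
        { toFun := fun a => LinearMap.trace F V ((e : End F V) * (a : End F V))
          map_add' := by
            intro a b
            rw [← map_add, ← mul_add]
            rfl
          map_smul' := by
            intro c a
            rw [RingHom.id_apply, ← map_smul, ← mul_smul_comm]
            rfl }
      map_add' := by
        intro a b
        refine LinearMap.ext fun x => ?_
        change LinearMap.trace F V (((a : End F V) + (b : End F V)) * (x : End F V)) = _
        rw [add_mul, map_add]
        rfl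
      map_smul' := by
        intro c a
        refine LinearMap.ext fun x => ?_
        change LinearMap.trace F V ((c • (a : End F V)) * (x : End F V)) = _
        rw [smul_mul_assoc, map_smul]
        rfl }
  have hT : Function.Injective T := by
    rw [← LinearMap.ker_eq_bot, LinearMap.ker_eq_bot']
    intro a ha
    refine Subtype.ext (trace_nondeg hN a.2 fun b hb => ?_)
    exact LinearMap.congr_fun ha ⟨b, hb⟩
  have hT2 : Function.Surjective T :=
    (LinearMap.injective_iff_surjective_of_finrank_eq_finrank
      (Subspace.dual_finrank_eq (K := F) (V := A)).symm).1 hT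
  let f : Module.Dual F A :=
    { toFun := fun a => LinearMap.trace F V (P * (a : End F V))
      map_add' := by
        intro a b
        rw [← map_add, ← mul_add]
        rfl
      map_smul' := by
        intro c a
        rw [RingHom.id_apply, ← map_smul, ← mul_smul_comm]
        rfl }
  obtain ⟨e, he⟩ := hT2 f
  exact ⟨e, e.2, fun a ha => LinearMap.congr_fun he ⟨a, ha⟩⟩

end

end Pool.Agent.R299.OFS
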