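import Mathlib

/-!
# Semisimple representations and filtrations: definitions
-/

set_option autoImplicit false

namespace Pool.Agent.R299.OFS

variable {F G V : Type} [Field F] [Group G] [AddCommGroup V] [Module F V]

/-- The subspace `W` is stable under the subgroup `H`. -/
def IsStable (ρ : Representation F G V) (H : Subgroup G) (W : Submodule F V) : Prop :=
  ∀ h ∈ H, ∀ v ∈ W, ρ h v ∈ W

/-- `V` is a semisimple representation of the subgroup `H`: each stable subspace has a stable
complement. -/
def IsSemisimple (ρ : Representation F G V) (H : Subgroup G) : Prop :=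
  ∀ W, IsStable ρ H W → ∃ W', IsStable ρ H W' ∧ IsCompl W W'

/-- The quotient `B / A` of stable subspaces is a semisimple representation of `H`: each stable
subspace between `A` and `B` has a stable complement between `A` and `B`. -/
def IsSemisimpleQuotient (ρ : Representation F G V) (H : Subgroup G) (A B : Submodule F V) : Prop :=
  ∀ W, A ≤ W → W ≤ B → IsStable ρ H W → ∃ W', A ≤ W' ∧ W' ≤ B ∧ IsStable ρ H W' ∧
    W ⊓ W' = A ∧ W ⊔ W' = B

/-- The filtration `Fl 0 = 0 ≤ ... ≤ Fl n = V` by subspaces which are stable under `H` and under all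
endomorphisms of `V` that commute with `N`, with semisimple quotients `Fl (j + 1) / Fl j`. -/
structure IsFibreFiltration (ρ : Representation F G V) (N H : Subgroup G) (n : ℕ)
    (Fl : ℕ → Submodule F V) : Prop where
  zero : Fl 0 = ⊥
  top : Fl n = ⊤
  mono : ∀ j, Fl j ≤ Fl (j + 1)
  stable : ∀ j, IsStable ρ H (Fl j)
  commutant : ∀ j, ∀ a : V →ₗ[F] V, (∀ g ∈ N, ∀ v, a (ρ g v) = ρ g (a v)) →
    ∀ v ∈ Fl j, a v ∈ Fl j
  semisimple : ∀ j < n, IsSemisimpleQuotient ρ H (Fl j) (Fl (j + 1))

/-- The subspace is obtained from the kernels and images of the powers of `T - 1` by sums and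
intersections. -/
inductive FromMonodromy (ρ : Representation F G V) (T : G) : Submodule F V → Prop where
  | ker (k : ℕ) : FromMonodromy ρ T (LinearMap.ker ((ρ T - 1) ^ k))
  | range (k : ℕ) : FromMonodromy ρ T (LinearMap.range ((ρ T - 1) ^ k))
  | sup (A B : Submodule F V) : FromMonodromy ρ T A → FromMonodromy ρ T B →
      FromMonodromy ρ T (A ⊔ B)
  | inf (A B : Submodule F V) : FromMonodromy ρ T A → FromMonodromy ρ T B →
      FromMonodromy ρ T (A ⊓ B)

/-- A filtration `Fl 0 = 0 ≤ ... ≤ Fl n = V` by subspaces obtained from the kernels and images of the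
powers of `T - 1`, for some `T` in `N`, which are stable under `H`, with semisimple quotients
`Fl (j + 1) / Fl j`. -/
structure IsLimitFiltration (ρ : Representation F G V) (N H : Subgroup G) (n : ℕ)
    (Fl : ℕ → Submodule F V) : Prop where
  zero : Fl 0 = ⊥
  top : Fl n = ⊤
  mono : ∀ j, Fl j ≤ Fl (j + 1)
  stable : ∀ j, IsStable ρ H (Fl j)
  monodromy : ∃ T ∈ N, ∀ j, FromMonodromy ρ T (Fl j)
  semisimple : ∀ j < n, IsSemisimpleQuotient ρ H (Fl j) (Fl (j + 1))

end Pool.Agent.R299.OFS
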