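import Pool.Agent.R299.OFS.Core

/-!
# Semisimplicity from a normal subgroup and a filtered semisimple subgroup: the main theorem
-/

set_option autoImplicit false
set_option linter.unusedSectionVars false
set_option linter.unusedVariables false

namespace Pool.Agent.R299.OFS

open Module LinearMap

noncomputable section

variable {F G V : Type} [Field F] [CharZero F] [Group G] [AddCommGroup V] [Module F V]
  [FiniteDimensional F V] {ρ : Representation F G V} {N H : Subgroup G} {n : ℕ}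
  {Fl : ℕ → Submodule F V}

theorem isStable_sup {A B : Submodule F V} (hA : IsStable ρ H A) (hB : IsStable ρ H B) :
    IsStable ρ H (A ⊔ B) := by
  intro h hh v hv
  obtain ⟨a, ha, b, hb, rfl⟩ := Submodule.mem_sup.1 hv
  rw [map_add]
  exact Submodule.add_mem_sup (hA h hh a ha) (hB h hh b hb)

theorem isStable_inf {A B : Submodule F V} (hA : IsStable ρ H A) (hB : IsStable ρ H B) :
    IsStable ρ H (A ⊓ B) := fun h hh v hv => ⟨hA h hh v hv.1, hB h hh v hv.2⟩

/-- A complement adapted to the filtration. -/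
theorem exists_adapted (hF : IsFibreFiltration ρ N H n Fl) {W : Submodule F V}
    (hW : IsStable ρ H W) : ∀ m ≤ n, ∃ c ≤ Fl m, W ⊓ c = ⊥ ∧
      (∀ j ≤ m, Fl j ≤ (W ⊓ Fl j) ⊔ (c ⊓ Fl j)) ∧
      ∀ j < m, IsStable ρ H ((c ⊓ Fl (j + 1)) ⊔ Fl j) := by
  intro m
  induction m with
  | zero =>
    intro _
    refine ⟨⊥, bot_le, inf_bot_eq _, ?_, fun j hj => absurd hj (Nat.not_lt_zero j)⟩
    intro j hj
    obtain rfl : j = 0 := Nat.le_zero.1 hj
    rw [hF.zero]
    exact bot_le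
  | succ m ih =>
    intro hm
    obtain ⟨c, hc, hWc, h1, h2⟩ := ih (Nat.le_of_succ_le hm)
    have hmono := hF.mono m
    have hstab : IsStable ρ H ((W ⊓ Fl (m + 1)) ⊔ Fl m) :=
      isStable_sup (isStable_inf hW (hF.stable _)) (hF.stable _)
    obtain ⟨W', hW1, hW2, hW3, hW4, hW5⟩ := hF.semisimple m hm ((W ⊓ Fl (m + 1)) ⊔ Fl m)
      le_sup_right (sup_le inf_le_right hmono) hstab
    obtain ⟨q, hq⟩ := Submodule.exists_isCompl (Fl m)
    have hD1 : Fl m ⊓ (W' ⊓ q) = ⊥ := by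
      refine le_bot_iff.1 ?_
      rw [← hq.inf_eq_bot]
      exact inf_le_inf_left _ inf_le_right
    have hD2 : Fl m ⊔ (W' ⊓ q) = W' := by
      rw [inf_comm, ← sup_inf_assoc_of_le q hW1, hq.sup_eq_top, top_inf_eq]
    have hc' : c ⊔ (W' ⊓ q) ≤ W' := sup_le (hc.trans hW1) inf_le_left
    have hcF : (c ⊔ (W' ⊓ q)) ⊓ Fl m = c := by
      rw [sup_inf_assoc_of_le _ hc, inf_comm (W' ⊓ q) (Fl m), hD1, sup_bot_eq]
    have hmonoj : ∀ j ≤ m, Fl j ≤ Fl m := by
      intro j hj
      exact monotone_nat_of_le_succ hF.mono hj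
    have hcj : ∀ j ≤ m, (c ⊔ (W' ⊓ q)) ⊓ Fl j = c ⊓ Fl j := by
      intro j hj
      have h3 : Fl j = Fl m ⊓ Fl j := (inf_eq_right.2 (hmonoj j hj)).symm
      rw [h3, ← inf_assoc, hcF, ← h3]
    refine ⟨c ⊔ (W' ⊓ q), hc'.trans hW2, ?_, ?_, ?_⟩
    · refine le_bot_iff.1 fun x hx => ?_
      obtain ⟨hx1, hx2⟩ := hx
      have h3 : x ∈ W' := hc' hx2
      have h4 : x ∈ (W ⊓ Fl (m + 1)) ⊔ Fl m := Submodule.mem_sup_left ⟨hx1, hW2 h3⟩
      have h5 : x ∈ Fl m := by
        rw [← hW4]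
        exact ⟨h4, h3⟩
      have h6 : x ∈ c := by
        rw [← hcF]
        exact ⟨hx2, h5⟩
      rw [← hWc]
      exact ⟨hx1, h6⟩
    · intro j hj
      rcases Nat.lt_or_ge j (m + 1) with hj' | hj'
      · have hj'' : j ≤ m := Nat.lt_succ_iff.1 hj'
        rw [hcj j hj'']
        exact h1 j hj''
      · obtain rfl : j = m + 1 := le_antisymm hj hj'
        have h3 : (c ⊔ (W' ⊓ q)) ⊓ Fl (m + 1) = c ⊔ (W' ⊓ q) :=
          inf_eq_left.2 (hc'.trans hW2)
        rw [h3]
        have h4 : Fl m ≤ (W ⊓ Fl (m + 1)) ⊔ (c ⊔ (W' ⊓ q)) := by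
          refine (h1 m le_rfl).trans (sup_le ?_ ?_)
          · exact (inf_le_inf_left _ hmono).trans le_sup_left
          · exact inf_le_left.trans (le_sup_left.trans le_sup_right)
        have h5 : W' ≤ (W ⊓ Fl (m + 1)) ⊔ (c ⊔ (W' ⊓ q)) := by
          refine le_trans (le_of_eq hD2.symm) (sup_le h4 ?_)
          exact le_sup_right.trans le_sup_right
        calc Fl (m + 1) = ((W ⊓ Fl (m + 1)) ⊔ Fl m) ⊔ W' := hW5.symm
          _ ≤ _ := sup_le (sup_le le_sup_left h4) h5
    · intro j hj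
      rcases Nat.lt_or_ge j m with hj' | hj'
      · rw [hcj (j + 1) hj']
        exact h2 j hj'
      · obtain rfl : j = m := le_antisymm (Nat.lt_succ_iff.1 hj) hj'
        have h3 : (c ⊔ (W' ⊓ q)) ⊓ Fl (j + 1) = c ⊔ (W' ⊓ q) :=
          inf_eq_left.2 (hc'.trans hW2)
        have h4 : (c ⊔ (W' ⊓ q)) ⊔ Fl j = W' := by
          refine le_antisymm (sup_le hc' hW1) ?_
          conv_lhs => rw [← hD2]
          exact sup_le le_sup_right (le_sup_right.trans le_sup_left)
        rw [h3, h4]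
        exact hW3

/-- The almost equivariant projection. -/
theorem exists_P (hF : IsFibreFiltration ρ N H n Fl) {W : Submodule F V} (hW : IsStable ρ H W) :
    ∃ P : End F V, (∀ w ∈ W, P w = w) ∧ (∀ v, P v ∈ W) ∧
      ∀ h ∈ H, ∀ j < n, ∀ v ∈ Fl (j + 1), P (ρ h v) - ρ h (P v) ∈ Fl j := by
  obtain ⟨c, -, hWc, h1, h2⟩ := exists_adapted hF hW n le_rfl
  have hcompl : IsCompl W c := by
    refine ⟨disjoint_iff.2 hWc, codisjoint_iff.2 ?_⟩
    have h3 := h1 n le_rfl
    rw [hF.top, inf_top_eq, inf_top_eq] at h3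
    exact top_le_iff.1 h3
  let P : End F V := W.projection c hcompl
  have p1 : ∀ w ∈ W, P w = w := fun w hw => Submodule.projection_apply_of_mem_left hcompl hw
  have p2 : ∀ w ∈ c, P w = 0 := fun w hw => Submodule.projection_apply_of_mem_right hcompl hw
  have p3 : ∀ v, P v ∈ W := fun v => by
    change W.projection c hcompl v ∈ W
    rw [Submodule.projection_apply]
    exact SetLike.coe_mem _
  have p4 : ∀ j ≤ n, ∀ v ∈ Fl j, P v ∈ Fl j := by
    intro j hj v hv
    obtain ⟨w, hw, d, hd, rfl⟩ := Submodule.mem_sup.1 (h1 j hj hv)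
    rw [map_add, p1 w hw.1, p2 d hd.1, add_zero]
    exact hw.2
  refine ⟨P, p1, p3, ?_⟩
  intro h hh j hj v hv
  obtain ⟨w, hw, d, hd, rfl⟩ := Submodule.mem_sup.1 (h1 (j + 1) hj hv)
  have h3 : P (ρ h (w + d)) - ρ h (P (w + d)) = P (ρ h d) := by
    rw [map_add, map_add, map_add, p1 w hw.1, p2 d hd.1, p1 _ (hW h hh w hw.1), add_zero]
    abel
  rw [h3]
  have h4 : ρ h d ∈ (c ⊓ Fl (j + 1)) ⊔ Fl j := h2 j hj h hh d (Submodule.mem_sup_left hd)
  obtain ⟨x, hx, y, hy, h5⟩ := Submodule.mem_sup.1 h4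
  rw [← h5, map_add, p2 x hx.1, zero_add]
  exact p4 j hj.le y hy

theorem trace_zero_of_filtration (hF : IsFibreFiltration ρ N H n Fl) {T : End F V}
    (hT : ∀ j < n, ∀ v ∈ Fl (j + 1), T v ∈ Fl j) : LinearMap.trace F V T = 0 := by
  have h1 : ∀ k ≤ n, ∀ v, (T ^ k) v ∈ Fl (n - k) := by
    intro k
    induction k with
    | zero =>
      intro _ v
      rw [Nat.sub_zero, hF.top]
      trivial
    | succ k ih =>
      intro hk v
      have h2 := ih (Nat.le_of_succ_le hk) v
      rw [pow_succ', Module.End.mul_apply]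
      refine hT (n - (k + 1)) (by omega) _ ?_
      have h3 : n - (k + 1) + 1 = n - k := by omega
      rw [h3]
      exact h2
  have h2 : T ^ n = 0 := by
    refine LinearMap.ext fun v => ?_
    have h3 := h1 n le_rfl v
    rw [Nat.sub_self, hF.zero, Submodule.mem_bot] at h3
    exact h3
  exact (LinearMap.isNilpotent_trace_of_isNilpotent ⟨n, h2⟩).eq_zero

theorem conj_mem_cen [hN : N.Normal] {a : End F V} (ha : a ∈ cen ρ N) (h : G) :
    ρ h * a * ρ h⁻¹ ∈ cen ρ N := by
  intro g hg v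
  have h1 : h⁻¹ * g * h ∈ N := by
    have := hN.conj_mem g hg h⁻¹
    rwa [inv_inv] at this
  change ρ h (a (ρ h⁻¹ (ρ g v))) = ρ g (ρ h (a (ρ h⁻¹ v)))
  have h2 : ρ h⁻¹ (ρ g v) = ρ (h⁻¹ * g * h) (ρ h⁻¹ v) := by
    rw [← Module.End.mul_apply, ← map_mul, ← Module.End.mul_apply, ← map_mul]
    congr 2
    group
  rw [h2, ha _ h1, ← Module.End.mul_apply, ← Module.End.mul_apply (ρ g), ← map_mul, ← map_mul]
  congr 2
  group

/-- The equivariant projection onto a stable subspace. -/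
theorem exists_equivariant [N.Normal] (hN : IsSemisimple ρ N) (hF : IsFibreFiltration ρ N H n Fl)
    {W : Submodule F V} (hWN : IsStable ρ N W) (hWH : IsStable ρ H W) :
    ∃ e : End F V, (∀ w ∈ W, e w = w) ∧ (∀ v, e v ∈ W) ∧
      (∀ g ∈ N ⊔ H, ∀ v, e (ρ g v) = ρ g (e v)) := by
  obtain ⟨W', hW', hWW'⟩ := hN W hWN
  obtain ⟨e0, he0, e01, -, e03⟩ := exists_proj hWW' hWN hW'
  obtain ⟨P, P1, P2, P3⟩ := exists_P hF hWH
  obtain ⟨e, he, htr⟩ := exists_repr hN P
  have hPe0 : P * e0 = e0 := LinearMap.ext fun v => P1 _ (e03 v)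
  have he0P : e0 * P = P := LinearMap.ext fun v => e01 _ (P2 v)
  have hcyc : ∀ a b : End F V, LinearMap.trace F V (a * b) = LinearMap.trace F V (b * a) :=
    fun a b => LinearMap.trace_mul_comm F a b
  -- `e` is the identity on `W`
  have h1 : e * e0 - e0 = 0 := by
    refine trace_nondeg hN ((cen ρ N).sub_mem (cen_mul he he0) he0) fun b hb => ?_
    rw [sub_mul, map_sub, mul_assoc, htr _ (cen_mul he0 hb), ← mul_assoc, hPe0, sub_self]
  -- the image of `e` is in `W`
  have h2 : e0 * e - e = 0 := by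
    refine trace_nondeg hN ((cen ρ N).sub_mem (cen_mul he0 he) he) fun b hb => ?_
    rw [sub_mul, map_sub, mul_assoc, hcyc e0 (e * b), mul_assoc, htr _ (cen_mul hb he0),
      ← mul_assoc, hcyc (P * b) e0, ← mul_assoc, he0P, htr b hb, sub_self]
  -- `e` commutes with `H`
  have h3 : ∀ h ∈ H, ρ h * e * ρ h⁻¹ - e = 0 := by
    intro h hh
    refine trace_nondeg hN ((cen ρ N).sub_mem (conj_mem_cen he h) he) fun b hb => ?_
    have hb' : ρ h⁻¹ * b * ρ h ∈ cen ρ N := by
      have := conj_mem_cen hb h⁻¹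
      rwa [inv_inv] at this
    have h4 : LinearMap.trace F V (ρ h * e * ρ h⁻¹ * b) =
        LinearMap.trace F V (P * (ρ h⁻¹ * b * ρ h)) := by
      rw [← htr _ hb', mul_assoc, mul_assoc, hcyc (ρ h)]
      simp only [mul_assoc]
    have h5 : LinearMap.trace F V (P * (ρ h⁻¹ * b * ρ h)) - LinearMap.trace F V (P * b) = 0 := by
      have h6 : LinearMap.trace F V (P * (ρ h⁻¹ * b * ρ h)) =
          LinearMap.trace F V (ρ h * P * ρ h⁻¹ * b) := by
        rw [hcyc P, mul_assoc, mul_assoc, hcyc (ρ h⁻¹), mul_assoc, mul_assoc, hcyc b, mul_assoc,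
          mul_assoc]
      rw [h6, ← map_sub, ← sub_mul]
      refine trace_zero_of_filtration hF fun j hj v hv => ?_
      have h7 : b v ∈ Fl (j + 1) := hF.commutant _ b hb v hv
      have h8 : ρ h⁻¹ (b v) ∈ Fl (j + 1) := hF.stable _ _ (H.inv_mem hh) _ h7
      have h9 := P3 h hh j hj _ h8
      have h10 : ρ h (ρ h⁻¹ (b v)) = b v := by
        rw [← Module.End.mul_apply, ← map_mul, mul_inv_cancel, map_one]
        rfl
      rw [h10] at h9
      have h11 : ((ρ h * P * ρ h⁻¹ - P) * b) v = -(P (b v) - ρ h (P (ρ h⁻¹ (b v)))) := by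
        rw [neg_sub]
        rfl
      rw [h11]
      exact (Fl j).neg_mem h9
    rw [sub_mul, map_sub, h4, htr b hb]
    exact h5
  have h4 : ∀ h ∈ H, ∀ v, e (ρ h v) = ρ h (e v) := by
    intro h hh v
    have h5 := LinearMap.congr_fun (sub_eq_zero.1 (h3 h hh)) (ρ h v)
    change ρ h (e (ρ h⁻¹ (ρ h v))) = e (ρ h v) at h5
    have h6 : ρ h⁻¹ (ρ h v) = v := by
      rw [← Module.End.mul_apply, ← map_mul, inv_mul_cancel, map_one]
      rfl
    rw [h6] at h5
    exact h5.symm
  refine ⟨e, ?_, ?_, ?_⟩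
  · intro w hw
    have h5 := LinearMap.congr_fun (sub_eq_zero.1 h1) w
    change e (e0 w) = e0 w at h5
    rw [e01 w hw] at h5
    exact h5
  · intro v
    have h5 := LinearMap.congr_fun (sub_eq_zero.1 h2) v
    change e0 (e v) = e v at h5
    rw [← h5]
    exact e03 _
  · let C : Subgroup G :=
      { carrier := {g | ∀ v, e (ρ g v) = ρ g (e v)}
        one_mem' := by
          intro v
          rw [map_one]
          rfl
        mul_mem' := by
          intro g g' hg hg' v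
          have h5 : ∀ u, ρ (g * g') u = ρ g (ρ g' u) := fun u => by rw [map_mul]; rfl
          rw [h5, h5, hg, hg']
        inv_mem' := by
          intro g hg v
          have h5 : ∀ u, ρ g (ρ g⁻¹ u) = u := fun u => by
            rw [← Module.End.mul_apply, ← map_mul, mul_inv_cancel, map_one]
            rfl
          have h6 : ∀ u, ρ g⁻¹ (ρ g u) = u := fun u => by
            rw [← Module.End.mul_apply, ← map_mul, inv_mul_cancel, map_one]
            rfl
          have h7 := hg (ρ g⁻¹ v)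
          rw [h5] at h7
          rw [h7, h6] }
    have h5 : N ⊔ H ≤ C := sup_le (fun g hg => he g hg) (fun g hg => h4 g hg)
    exact fun g hg => h5 hg

/-- **The main theorem.** -/
theorem semisimple_of_fibre [N.Normal] (hfi : (N ⊔ H).FiniteIndex) (hN : IsSemisimple ρ N)
    (hF : IsFibreFiltration ρ N H n Fl) : IsSemisimple ρ ⊤ := by
  classical
  intro W hW
  obtain ⟨e, e1, e2, e3⟩ := exists_equivariant hN hF (fun g _ => hW g trivial)
    (fun g _ => hW g trivial)
  let K := N ⊔ H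
  have : Fintype (G ⧸ K) := Subgroup.fintypeQuotientOfFiniteIndex
  let c : G → End F V := fun g => ρ g * e * ρ g⁻¹
  have hc : ∀ g, ∀ k ∈ K, c (g * k) = c g := by
    intro g k hk
    refine LinearMap.ext fun v => ?_
    change ρ (g * k) (e (ρ (g * k)⁻¹ v)) = ρ g (e (ρ g⁻¹ v))
    have h1 : ∀ u, ρ (g * k) u = ρ g (ρ k u) := fun u => by rw [map_mul]; rfl
    have h2 : ρ (g * k)⁻¹ v = ρ k⁻¹ (ρ g⁻¹ v) := by rw [mul_inv_rev, map_mul]; rfl
    rw [h1, h2, ← e3 k hk]
    congr 2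
    rw [← Module.End.mul_apply, ← map_mul, mul_inv_cancel, map_one]
    rfl
  have hc1 : ∀ g, ∀ w ∈ W, c g w = w := by
    intro g w hw
    change ρ g (e (ρ g⁻¹ w)) = w
    rw [e1 _ (hW g⁻¹ trivial w hw), ← Module.End.mul_apply, ← map_mul, mul_inv_cancel, map_one]
    rfl
  have hc2 : ∀ g v, c g v ∈ W := fun g v => hW g trivial _ (e2 _)
  let s : End F V := ∑ x : G ⧸ K, c x.out
  have hs1 : ∀ w ∈ W, s w = (Fintype.card (G ⧸ K) : F) • w := by
    intro w hw
    change (∑ x : G ⧸ K, c x.out) w = _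
    rw [LinearMap.sum_apply, Finset.sum_congr rfl (fun x _ => hc1 _ w hw), Finset.sum_const,
      Finset.card_univ, Nat.cast_smul_eq_nsmul]
  have hs2 : ∀ v, s v ∈ W := by
    intro v
    change (∑ x : G ⧸ K, c x.out) v ∈ W
    rw [LinearMap.sum_apply]
    exact W.sum_mem fun x _ => hc2 _ v
  have hs3 : ∀ g v, s (ρ g v) = ρ g (s v) := by
    intro g v
    change (∑ x : G ⧸ K, c x.out) (ρ g v) = ρ g ((∑ x : G ⧸ K, c x.out) v)
    rw [LinearMap.sum_apply, LinearMap.sum_apply, map_sum]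
    refine Fintype.sum_equiv (MulAction.toPerm g⁻¹) _ _ fun x => ?_
    rw [MulAction.toPerm_apply]
    have h1 : ∃ k ∈ K, (g⁻¹ • x).out = g⁻¹ * x.out * k := by
      have h2 : ((g⁻¹ * x.out : G) : G ⧸ K) = g⁻¹ • x := by
        conv_rhs => rw [← QuotientGroup.out_eq' x]
        rfl
      have h3 : ((g⁻¹ * x.out : G) : G ⧸ K) = (((g⁻¹ • x).out : G) : G ⧸ K) := by
        rw [h2, QuotientGroup.out_eq']
      rw [QuotientGroup.eq] at h3
      exact ⟨_, h3, by group⟩
    obtain ⟨k, hk, h2⟩ := h1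
    rw [h2, hc _ k hk]
    change ρ x.out (e (ρ x.out⁻¹ (ρ g v))) = ρ g (ρ (g⁻¹ * x.out) (e (ρ (g⁻¹ * x.out)⁻¹ v)))
    have h3 : ∀ u, ρ (g⁻¹ * x.out) u = ρ g⁻¹ (ρ x.out u) := fun u => by rw [map_mul]; rfl
    have h4 : ∀ u, ρ g (ρ g⁻¹ u) = u := fun u => by
      rw [← Module.End.mul_apply, ← map_mul, mul_inv_cancel, map_one]
      rfl
    have h5 : ρ (g⁻¹ * x.out)⁻¹ v = ρ x.out⁻¹ (ρ g v) := by
      rw [mul_inv_rev, inv_inv, map_mul]
      rfl
    rw [h3, h4, h5]
  refine ⟨LinearMap.ker s, ?_, ?_⟩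
  · intro g _ v hv
    rw [LinearMap.mem_ker] at hv ⊢
    rw [hs3, hv, map_zero]
  · have hcard : (Fintype.card (G ⧸ K) : F) ≠ 0 := Nat.cast_ne_zero.2 Fintype.card_ne_zero
    refine ⟨disjoint_iff.2 (le_bot_iff.1 fun w hw => ?_), codisjoint_iff.2 (top_le_iff.1 ?_)⟩
    · obtain ⟨h1, h2⟩ := hw
      have h3 : s w = 0 := h2
      rw [hs1 w h1] at h3
      exact (Submodule.mem_bot F).2 ((smul_eq_zero.1 h3).resolve_left hcard)
    · intro v _
      have h1 : v = (Fintype.card (G ⧸ K) : F)⁻¹ • s v + (v - (Fintype.card (G ⧸ K) : F)⁻¹ • s v) := by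
        abel
      rw [h1]
      refine Submodule.add_mem_sup (W.smul_mem _ (hs2 v)) ?_
      rw [LinearMap.mem_ker, map_sub, map_smul, hs1 _ (hs2 v), smul_smul, inv_mul_cancel₀ hcard,
        one_smul, sub_self]

/-- The subspaces obtained from the monodromy are stable under the commutant. -/
theorem commutant_of_monodromy {T : G} (hT : T ∈ N) {A : Submodule F V}
    (hA : FromMonodromy ρ T A) (a : V →ₗ[F] V) (ha : ∀ g ∈ N, ∀ v, a (ρ g v) = ρ g (a v)) :
    ∀ v ∈ A, a v ∈ A := by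
  have hpow : ∀ k : ℕ, ∀ v, a (((ρ T - 1) ^ k : End F V) v) = ((ρ T - 1) ^ k : End F V) (a v) := by
    intro k
    induction k with
    | zero =>
      intro v
      rfl
    | succ k ih =>
      intro v
      rw [pow_succ, Module.End.mul_apply, Module.End.mul_apply, ih]
      congr 1
      change a (ρ T v - v) = ρ T (a v) - a v
      rw [map_sub, ha T hT]
  induction hA with
  | ker k =>
    intro v hv
    rw [LinearMap.mem_ker] at hv ⊢
    rw [← hpow, hv, map_zero]
  | range k =>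
    rintro _ ⟨v, rfl⟩
    exact ⟨a v, (hpow k v).symm⟩
  | sup A B _ _ hA hB =>
    intro v hv
    obtain ⟨x, hx, y, hy, rfl⟩ := Submodule.mem_sup.1 hv
    rw [map_add]
    exact Submodule.add_mem_sup (hA x hx) (hB y hy)
  | inf A B _ _ hA hB => exact fun v hv => ⟨hA v hv.1, hB v hv.2⟩

theorem fibre_of_limit (h : IsLimitFiltration ρ N H n Fl) : IsFibreFiltration ρ N H n Fl := by
  obtain ⟨T, hT, hTj⟩ := h.monodromy
  exact ⟨h.zero, h.top, h.mono, h.stable, fun j a ha => commutant_of_monodromy hT (hTj j) a ha,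
    h.semisimple⟩

/-- The trivial filtration. -/
theorem fibre_of_semisimple (hH : IsSemisimple ρ H) :
    IsFibreFiltration ρ N H 1 (fun j => if j = 0 then ⊥ else ⊤) := by
  refine ⟨by simp, by simp, ?_, ?_, ?_, ?_⟩
  · intro j
    simp
  · intro j
    by_cases hj : j = 0
    · simp only [hj, if_true]
      intro h _ v hv
      rw [Submodule.mem_bot] at hv ⊢
      rw [hv, map_zero]
    · simp only [hj, if_false]
      intro h _ v _
      trivial
  · intro j a _
    by_cases hj : j = 0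
    · simp only [hj, if_true]
      intro v hv
      rw [Submodule.mem_bot] at hv ⊢
      rw [hv, map_zero]
    · simp only [hj, if_false]
      intro v _
      trivial
  · intro j hj
    obtain rfl : j = 0 := by omega
    intro W _ _ hW
    obtain ⟨W', hW', hc⟩ := hH W hW
    refine ⟨W', ?_, ?_, hW', ?_, ?_⟩
    · simp
    · simp
    · simpa using hc.inf_eq_bot
    · simpa using hc.sup_eq_top

variable [hNn : N.Normal]

/-- The fixed part of the geometric monodromy is semisimple for all fibres. -/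
theorem fixed_semisimple (h : IsSemisimple ρ ⊤) {H' : Subgroup G} (hH' : N ⊔ H' = ⊤)
    {U : Submodule F V} (hU : ∀ v, v ∈ U ↔ ∀ g ∈ N, ρ g v = v) :
    IsSemisimpleQuotient ρ H' ⊥ U := by
  intro W _ hWU hW
  have hWG : IsStable ρ ⊤ W := by
    let C : Subgroup G :=
      { carrier := {g | ∀ v ∈ W, ρ g v ∈ W ∧ ρ g⁻¹ v ∈ W}
        one_mem' := by
          intro v hv
          rw [inv_one, map_one]
          exact ⟨hv, hv⟩
        mul_mem' := by
          intro g g' hg hg' v hv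
          rw [mul_inv_rev, map_mul, map_mul]
          exact ⟨(hg _ (hg' v hv).1).1, (hg' _ (hg v hv).2).2⟩
        inv_mem' := by
          intro g hg v hv
          rw [inv_inv]
          exact ⟨(hg v hv).2, (hg v hv).1⟩ }
    have h1 : N ⊔ H' ≤ C := by
      refine sup_le (fun g hg v hv => ?_) (fun g hg v hv => ⟨hW g hg v hv, hW _ (H'.inv_mem hg) v hv⟩)
      rw [(hU v).1 (hWU hv) g hg, (hU v).1 (hWU hv) _ (N.inv_mem hg)]
      exact ⟨hv, hv⟩
    intro g _ v hv
    exact (h1 (by rw [hH']; trivial) v hv).1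
  obtain ⟨W', hW', hc⟩ := h W hWG
  refine ⟨W' ⊓ U, bot_le, inf_le_right, ?_, ?_, ?_⟩
  · intro g hg v hv
    obtain ⟨hv1, hv2⟩ := hv
    refine ⟨hW' g trivial v hv1, ?_⟩
    rw [SetLike.mem_coe] at hv2 ⊢
    rw [hU] at hv2 ⊢
    intro x hx
    have h3 : ρ x (ρ g v) = ρ g (ρ (g⁻¹ * x * g) v) := by
      rw [← Module.End.mul_apply, ← map_mul, ← Module.End.mul_apply, ← map_mul]
      congr 2
      group
    have h4 : g⁻¹ * x * g ∈ N := by
      have := hNn.conj_mem x hx g⁻¹
      rwa [inv_inv] at this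
    rw [h3, hv2 _ h4]
  · refine le_bot_iff.1 ?_
    rw [← hc.inf_eq_bot]
    exact inf_le_inf_left _ inf_le_left
  · refine le_antisymm (sup_le hWU inf_le_right) ?_
    intro u hu
    have h1 : u ∈ W ⊔ W' := by
      rw [hc.sup_eq_top]
      trivial
    obtain ⟨w, hw, w', hw', rfl⟩ := Submodule.mem_sup.1 h1
    refine Submodule.add_mem_sup hw ⟨hw', ?_⟩
    have h2 : w' = (w + w') - w := by abel
    rw [h2]
    exact U.sub_mem hu (hWU hw)

end

end Pool.Agent.R299.OFS
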