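import Pool.Agent.R299.OFS.Main

/-!
# Semisimplicity of the Galois action from one fibre, smooth or degenerate

Let `X` be a smooth projective variety over a finitely generated field `k` of characteristic zero.
Let `k` be a finitely generated extension of a field `k₀` of characteristic zero (for example of a
number field), and let `X` be the generic fibre of a smooth projective family `f : 𝒳 → S` over a normal
geometrically connected variety `S` over `k₀` with function field `k`. Then `V = H^i_ℓ(X)` is a
representation of the fundamental group `G` of `S` (a quotient of the Galois group of `k`). Let `N` be
the geometric fundamental group, a normal subgroup of `G`. By Deligne (Weil II, 3.4.1) the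
representation `V` of `N` is semisimple.

**Theorem.** Let `s` be **one** point and `H` its decomposition group in `G`.

1. (smooth fibre) Let `s` be a closed point of `S`, so that the representation `V` of `H` is the
   representation `H^i_ℓ(X_s)` of the Galois group of the residue field of `s`. If it is semisimple, then
   `H^i_ℓ(X)` is semisimple.
2. (degenerate fibre) Let `s` be a rational point, or a closed point, of a smooth compactification of a
   curve `S`, at which `f` is degenerate with unipotent monodromy. The inertia group is contained in
   `N`, let `T` be a generator. The members of the monodromy filtration are sums of
   intersections of the kernels and images of the powers of `T - 1`, and are stable under `H`. If the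
   quotients of this filtration are semisimple representations of `H`, then `H^i_ℓ(X)` is semisimple.
   If the degenerate fibre is semistable then, by the weight spectral sequence and the
   monodromy-weight theorem in equal characteristic zero, these quotients are subquotients of the sum of
   the cohomology groups (with Tate twists) of the intersections of components of this fibre. So it
   is enough that these have semisimple cohomology; for instance if they are toric varieties, or
   have a cellular decomposition (and also for all points of maximal degeneration).
3. (general form) The same is true for each filtration of `V` with semisimple quotients by subspaces
   stable under `H` and under all endomorphisms of `V` which commute with `N`.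
4. (all other fibres) In all these cases, for **every** closed point `s'` with residue field `k₀` the
   part of `H^i_ℓ(X_s')` which is fixed by the geometric monodromy is a semisimple representation of the
   Galois group of `k₀`.

So the conjecture of Grothendieck and Serre holds for the generic fibre of **every** smooth projective
family over `S`, whatever its monodromy is, that has one member whose cohomology is known to be
semisimple (an abelian variety, a product of curves, a Fermat hypersurface, a variety with cohomology of
CM type or of type `(p, p)`, ...), or one semistable degeneration to a union of varieties whose
intersections have this property (a toric degeneration, a union of hyperplanes in general position,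
...); for all `ℓ` and `i` at the same time. If `k₀` is a number field and `S` is rational then, by Hilbert's
irreducibility theorem (Serre, Terasoma), the Galois image for the fibres outside of a thin set is the
image of `G`, so that it holds for these fibres, which are varieties over the number field `k₀`.

In the theorem `N ⊔ H` is only supposed to be of finite index in `G` (the residue field of `s` can be
larger than `k₀`), and `F` is any field of characteristic zero.

For smooth fibres over finite fields the first part is a theorem of L. Fu (On the semisimplicity of pure
sheaves, 1999); the parts on degenerate fibres are new, as far as I know.

The proof does not use algebraic groups. Let `A` be the algebra of the endomorphisms of `V` which commute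
with `N`. As `V` is semisimple over `N`, the trace form `tr (a b)` is nondegenerate on `A`, and
every stable subspace `W` is the image of a projector `e₀` in `A`. The subspaces of the filtration
have complements in `W` and in `V` which can be chosen compatibly, in such a way that the projection
`P` onto `W` commutes with `H` on the quotients of the filtration. The element `e` of `A` with
`tr (e a) = tr (P a)` for all `a` in `A` commutes with `H`, since nilpotent maps have trace zero, and
`e e₀ = e₀`, `e₀ e = e`. So `e` is a projection onto `W` which commutes with `N` and `H`.
-/

set_option autoImplicit false

namespace Pool.Agent.R299.OFS.OneFibre

open Pool.Agent.R299.OFS

/-- **Semisimplicity of the Galois action from one fibre, smooth or degenerate.** -/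
theorem result {F G V : Type} [Field F] [CharZero F] [Group G] [AddCommGroup V] [Module F V]
    [FiniteDimensional F V] (ρ : Representation F G V) (N H : Subgroup G) [N.Normal]
    (hfi : (N ⊔ H).FiniteIndex) (hN : IsSemisimple ρ N) :
    (IsSemisimple ρ H → IsSemisimple ρ ⊤) ∧
    (∀ n Fl, IsLimitFiltration ρ N H n Fl → IsSemisimple ρ ⊤) ∧
    (∀ n Fl, IsFibreFiltration ρ N H n Fl → IsSemisimple ρ ⊤) ∧
    (IsSemisimple ρ ⊤ → ∀ H' : Subgroup G, N ⊔ H' = ⊤ → ∀ U : Submodule F V,
      (∀ v, v ∈ U ↔ ∀ g ∈ N, ρ g v = v) → IsSemisimpleQuotient ρ H' ⊥ U) := by
  refine ⟨fun hH => semisimple_of_fibre hfi hN (fibre_of_semisimple hH),
    fun n Fl h => semisimple_of_fibre hfi hN (fibre_of_limit h),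
    fun n Fl h => semisimple_of_fibre hfi hN h, fun h H' hH' U hU => fixed_semisimple h hH' hU⟩

end Pool.Agent.R299.OFS.OneFibre
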